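import Pool.Agent.NH92.Shuf.Upper
import Pool.Agent.NH92.Shuf.Lower

/-!
The minimum length of a strong `(2, n)`-shuffle is of order `n log n`.
-/

namespace Pool.Agent.Results.MP_2f8515_co.NLogN

open Finset Filter Asymptotics Pool.Agent.NH92.Shuf

/-- A lazy transposition with parameters `(a, b, p)`, where `a`, `b` are distinct points and
`p ∈ [0, 1]`. -/
structure LazyTransposition (n : ℕ) where
  a : Fin n
  b : Fin n
  p : ℝ
  a_ne_b : a ≠ b
  p_nonneg : 0 ≤ p
  p_le_one : p ≤ 1

/-- The value of the lazy transposition when its coin shows `c`. -/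
def LazyTransposition.outcome {n : ℕ} (T : LazyTransposition n) (c : Bool) :
    Equiv.Perm (Fin n) := if c then Equiv.swap T.a T.b else 1

/-- The probability that its coin shows `c`. -/
def LazyTransposition.weight {n : ℕ} (T : LazyTransposition n) (c : Bool) : ℝ :=
  if c then T.p else 1 - T.p

/-- The product `T_1 T_2 ... T_l` when the coins show `c`. -/
def product {n l : ℕ} (T : Fin l → LazyTransposition n) (c : Fin l → Bool) :
    Equiv.Perm (Fin n) := (List.ofFn fun i => (T i).outcome (c i)).prod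

open Classical in
/-- The probability of the event `σ ∈ E` for `σ = T_1 T_2 ... T_l`, the `T_i` being independent. -/
noncomputable def prob {n l : ℕ} (T : Fin l → LazyTransposition n)
    (E : Set (Equiv.Perm (Fin n))) : ℝ :=
  ∑ c : Fin l → Bool, if product T c ∈ E then ∏ i, (T i).weight (c i) else 0

/-- `T_1, ..., T_l` is a strong `(2, n)`-shuffle. -/
def IsStrongTwoShuffle {n l : ℕ} (T : Fin l → LazyTransposition n) : Prop :=
  ∀ x₁ x₂ y₁ y₂ : Fin n, x₁ ≠ x₂ → y₁ ≠ y₂ →
    prob T {σ | σ x₁ = y₁ ∧ σ x₂ = y₂} = 1 / ((n : ℝ) * ((n : ℝ) - 1))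

/-- The minimum length of a strong `(2, n)`-shuffle. -/
noncomputable def U2all (n : ℕ) : ℕ :=
  sInf {l | ∃ T : Fin l → LazyTransposition n, IsStrongTwoShuffle T}

/-! ### The link with the lists of the helper files -/

def toLz {n : ℕ} (T : LazyTransposition n) : Lz (Fin n) := ⟨T.a, T.b, T.p⟩

theorem toLz_ok {n : ℕ} (T : LazyTransposition n) : (toLz T).Ok :=
  ⟨T.a_ne_b, T.p_nonneg, T.p_le_one⟩

def lst {n l : ℕ} (T : Fin l → LazyTransposition n) : List (Lz (Fin n)) :=
  (List.ofFn fun i => toLz (T i)).reverse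

theorem expect_eq {n l : ℕ} (T : Fin l → LazyTransposition n) (f : Fin n → Fin n → ℝ)
    (x y : Fin n) :
    ∑ c : Fin l → Bool, (∏ i, (T i).weight (c i)) * f (product T c x) (product T c y)
      = run (lst T) f x y := by
  induction l generalizing f x y with
  | zero => simp [product, lst]
  | succ l ih =>
    rw [← Equiv.sum_comp (Fin.consEquiv (fun _ => Bool)), Fintype.sum_prod_type, Finset.sum_comm]
    have e1 : ∀ c' : Fin l → Bool, ∑ b : Bool,
        (∏ i, (T i).weight ((Fin.consEquiv (fun _ : Fin (l + 1) => Bool)) (b, c') i)) *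
          f (product T ((Fin.consEquiv (fun _ => Bool)) (b, c')) x)
            (product T ((Fin.consEquiv (fun _ => Bool)) (b, c')) y)
        = (∏ i, (T (Fin.succ i)).weight (c' i)) *
          st (toLz (T 0)) f (product (fun i => T (Fin.succ i)) c' x)
            (product (fun i => T (Fin.succ i)) c' y) := by
      intro c'
      rw [Fintype.sum_bool]
      simp only [Fin.consEquiv, Equiv.coe_fn_mk, Fin.prod_univ_succ, Fin.cons_zero, Fin.cons_succ,
        product, List.ofFn_succ, List.prod_cons, LazyTransposition.weight,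
        LazyTransposition.outcome, if_true, Equiv.Perm.mul_apply, st, toLz]
      simp
      ring
    simp only [e1]
    rw [ih (fun i => T (Fin.succ i)) (st (toLz (T 0)) f) x y]
    unfold lst
    rw [List.ofFn_succ, List.reverse_cons, run_append]
    rfl

theorem prob_eq {n l : ℕ} (T : Fin l → LazyTransposition n) (x₁ x₂ y₁ y₂ : Fin n) :
    prob T {σ | σ x₁ = y₁ ∧ σ x₂ = y₂}
      = run (lst T) (fun a b => if a = y₁ ∧ b = y₂ then 1 else 0) x₁ x₂ := by
  rw [← expect_eq]
  unfold prob
  apply Finset.sum_congr rfl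
  intro c _
  by_cases h : product T c x₁ = y₁ ∧ product T c x₂ = y₂
  · rw [if_pos h, mul_one, if_pos (show product T c ∈ {σ | σ x₁ = y₁ ∧ σ x₂ = y₂} from h)]
  · rw [if_neg h, mul_zero, if_neg (show ¬ product T c ∈ {σ | σ x₁ = y₁ ∧ σ x₂ = y₂} from h)]

theorem run_sum {V ι : Type*} [DecidableEq V] (L : List (Lz V)) (s : Finset ι)
    (G : ι → V → V → ℝ) (x y : V) :
    run L (fun a b => ∑ i ∈ s, G i a b) x y = ∑ i ∈ s, run L (G i) x y := by
  induction L generalizing x y with
  | nil => simp
  | cons t L ih =>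
    simp only [run_cons, st, ih, Finset.sum_add_distrib, Finset.mul_sum]

theorem exists_of_TB {n l : ℕ} (h : TB n l) :
    ∃ l' ≤ l, ∃ T : Fin l' → LazyTransposition n, IsStrongTwoShuffle T := by
  obtain ⟨L, hl, hL⟩ := h (Fin n) univ (by simp)
  let T : Fin L.reverse.length → LazyTransposition n := fun i =>
    ⟨(L.reverse.get i).a, (L.reverse.get i).b, (L.reverse.get i).p,
      (hL.ok _ (List.mem_reverse.1 (List.get_mem _ i))).1,
      (hL.ok _ (List.mem_reverse.1 (List.get_mem _ i))).2.1,
      (hL.ok _ (List.mem_reverse.1 (List.get_mem _ i))).2.2⟩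
  have hT : lst T = L := by
    unfold lst
    have : (fun i => toLz (T i)) = L.reverse.get := by
      ext i; rfl
    rw [this, List.ofFn_get, List.reverse_reverse]
  refine ⟨L.reverse.length, by simpa using hl, T, ?_⟩
  intro x₁ x₂ y₁ y₂ hx hy
  rw [prob_eq, hT, hL.run_eq _ (mem_univ _) (mem_univ _) hx, card_univ, Fintype.card_fin]
  congr 1
  rw [Finset.sum_eq_single (y₁, y₂)]
  · simp
  · rintro ⟨a, b⟩ _ hab
    rw [if_neg]
    rintro ⟨h1, h2⟩
    exact hab (Prod.ext h1 h2)
  · intro h; exact absurd (mem_offDiag.2 ⟨mem_univ _, mem_univ _, hy⟩) h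

theorem lower_of_strong {n l : ℕ} (hn : 2 ≤ n) (T : Fin l → LazyTransposition n)
    (hT : IsStrongTwoShuffle T) : (n : ℝ) * Real.logb 2 n / 2 ≤ l := by
  have hn' : (2 : ℝ) ≤ n := by exact_mod_cast hn
  have h := lower (L := lst T) (by
    intro t ht
    unfold lst at ht
    rw [List.mem_reverse, List.mem_ofFn] at ht
    obtain ⟨i, rfl⟩ := ht
    exact toLz_ok _) (by
    intro x y
    obtain ⟨x', hx'⟩ : ∃ x' : Fin n, x ≠ x' := by
      have : Nontrivial (Fin n) := Fin.nontrivial_iff_two_le.2 hn
      obtain ⟨x', hx'⟩ := exists_ne x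
      exact ⟨x', hx'.symm⟩
    unfold mat
    rw [← run_fst _ _ x x']
    have e1 : ∀ a b : Fin n, a ≠ b → (if a = y then (1 : ℝ) else 0)
        = ∑ y' ∈ univ.erase y, if a = y ∧ b = y' then (1 : ℝ) else 0 := by
      intro a b hab
      by_cases ha : a = y
      · subst ha
        rw [Finset.sum_eq_single b]
        · simp
        · intro c _ hc; simp [Ne.symm hc]
        · intro h; exact absurd (Finset.mem_erase.2 ⟨hab.symm, mem_univ _⟩) h
      · simp [ha]
    rw [run_congr e1 hx', run_sum]
    have e2 : ∀ y' ∈ univ.erase y,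
        run (lst T) (fun a b => if a = y ∧ b = y' then (1 : ℝ) else 0) x x'
          = 1 / ((n : ℝ) * ((n : ℝ) - 1)) := by
      intro y' hy'
      rw [← prob_eq]
      exact hT x x' y y' hx' (Finset.ne_of_mem_erase hy').symm
    rw [Finset.sum_congr rfl e2, Finset.sum_const, Finset.card_erase_of_mem (mem_univ _), card_univ,
      Fintype.card_fin, nsmul_eq_mul]
    have h1 : 1 ≤ n := by omega
    push_cast [h1]
    have h2 : (n : ℝ) - 1 ≠ 0 := by linarith
    have h3 : (n : ℝ) ≠ 0 := by linarith
    field_simp)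
  rw [Fintype.card_fin] at h
  simpa [lst] using h

/-- For every `n ≥ 2` there is a strong `(2, n)`-shuffle, the minimum length `U2all n` of one
satisfies `(n / 2) log_2 n ≤ U2all n ≤ 8 n log_2 n + 5 n`, and so `U2all n` is of order exactly
`n log n`. -/
theorem result :
    (∀ n : ℕ, 2 ≤ n →
      (∃ T : Fin (U2all n) → LazyTransposition n, IsStrongTwoShuffle T) ∧
      (n : ℝ) * Real.logb 2 n / 2 ≤ U2all n ∧
      (U2all n : ℝ) ≤ 8 * n * Real.logb 2 n + 5 * n) ∧
    (fun n : ℕ => (U2all n : ℝ)) =Θ[atTop] (fun n : ℕ => (n : ℝ) * Real.log n) := by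
  have main : ∀ n : ℕ, 2 ≤ n →
      (∃ T : Fin (U2all n) → LazyTransposition n, IsStrongTwoShuffle T) ∧
      (n : ℝ) * Real.logb 2 n / 2 ≤ U2all n ∧
      (U2all n : ℝ) ≤ 8 * n * Real.logb 2 n + 5 * n := by
    intro n hn
    obtain ⟨l, hl, hb⟩ := TB_all n (by omega)
    obtain ⟨l', hl', T, hT⟩ := exists_of_TB hl
    have hne : {l | ∃ T : Fin l → LazyTransposition n, IsStrongTwoShuffle T}.Nonempty :=
      ⟨l', T, hT⟩
    have hmem : ∃ T : Fin (U2all n) → LazyTransposition n, IsStrongTwoShuffle T := Nat.sInf_mem hne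
    refine ⟨hmem, ?_, ?_⟩
    · obtain ⟨T', hT'⟩ := hmem
      exact lower_of_strong hn T' hT'
    · have h1 : U2all n ≤ l' := Nat.sInf_le ⟨T, hT⟩
      have h2 : (U2all n : ℝ) ≤ l := by exact_mod_cast h1.trans hl'
      exact h2.trans hb
  refine ⟨main, ?_, ?_⟩
  · apply IsBigO.of_bound (13 / Real.log 2)
    filter_upwards [eventually_ge_atTop 2] with n hn
    obtain ⟨_, _, h2⟩ := main n hn
    have hn' : (2 : ℝ) ≤ n := by exact_mod_cast hn
    have hl2 : 0 < Real.log 2 := Real.log_pos (by norm_num)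
    have hln : Real.log 2 ≤ Real.log n := Real.log_le_log (by norm_num) hn'
    rw [Real.norm_of_nonneg (by positivity), Real.norm_of_nonneg
      (mul_nonneg (by linarith) (by linarith))]
    refine h2.trans ?_
    rw [Real.logb, div_mul_eq_mul_div, mul_div_assoc', ← sub_nonneg]
    have : 13 * ((n : ℝ) * Real.log n) / Real.log 2 - (8 * n * Real.log n / Real.log 2 + 5 * n)
        = 5 * n * (Real.log n - Real.log 2) / Real.log 2 := by
      field_simp; ring
    rw [this]
    exact div_nonneg (mul_nonneg (by linarith) (by linarith)) hl2.le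
  · apply IsBigO.of_bound (2 * Real.log 2)
    filter_upwards [eventually_ge_atTop 2] with n hn
    obtain ⟨_, h1, _⟩ := main n hn
    have hn' : (2 : ℝ) ≤ n := by exact_mod_cast hn
    have hl2 : 0 < Real.log 2 := Real.log_pos (by norm_num)
    have hln : Real.log 2 ≤ Real.log n := Real.log_le_log (by norm_num) hn'
    rw [Real.norm_of_nonneg (mul_nonneg (by linarith) (by linarith)),
      Real.norm_of_nonneg (by positivity)]
    rw [Real.logb, mul_div_assoc', div_div, div_le_iff₀ (by positivity)] at h1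
    linarith

end Pool.Agent.Results.MP_2f8515_co.NLogN
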